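import Pool.Agent.N174.NC.DMain

/-!
# The noncommutative standard conjecture of type D for the products of a dg category with varieties

Let `𝒜` be an arbitrary smooth proper dg category over a field `F`. The theorem is about the dg
categories `perf(V) ⊗ 𝒜` for smooth projective varieties `V`. It reduces the noncommutative
standard conjecture of type D (numerical = homological equivalence) for `perf(V) ⊗ 𝒜` to the one
for `perf(V₀) ⊗ 𝒜` for all varieties `V` which are obtained from `V₀` by the following steps:

* from `Y ^ (n + 1) × Z` to `X ^ (n + 1) × Z`, in all powers, where `f : X ⟶ Y` is a morphism whose
  vanishing cohomology `E = ker f_*` is in the middle degree and irreducible under all subgroups of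
  finite index of the (geometric) monodromy group `Γ`, with a retraction of `f^*` along `E` which is
  given by algebraic correspondences; some element of `Γ` acts trivially on the cohomology of `Y`,
  `Z` and `𝒜`, and by a Picard-Lefschetz formula on `E`, and the classes of perfect modules for
  `perf(X ^ (n + 1) × Z) ⊗ 𝒜` are fixed by subgroups of finite index of `Γ`; if the dimension of `X`
  is even, `n + 1 < dim E`;
* from `Z` to `Y × Z`, where the diagonal of `Y` is decomposable (toric varieties, homogeneous
  spaces and so on);
* from `V` to the varieties dominated by `V`.

For example let `X` be the generic member of a Lefschetz pencil of ample divisors (or of a suitable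
pencil of double coverings) of a toric variety or a homogeneous space `Y` over `F`, and `𝒜` a dg
category over `F`. If the dimension of `X` is odd, then for all `n` and **all smooth proper dg
categories `𝒜`** the conjecture of type D for `perf(X ^ n) ⊗ 𝒜`, over `F(t)`, is equivalent to the
one for `𝒜`.

In the statement the numerical equivalence is defined by the pairing of the classes of modules for
`perf(V) ⊗ 𝒜` with the classes of modules for `perf(V) ⊗ 𝒜^op`, which is the product of the trace
form on the cohomology of `V` and of a pairing `b` on the homology of `𝒜` and `𝒜^op`. Only
the properties of the classes of modules are used that are listed in `DgCat`: they are rational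
subspaces of `H(V) ⊗ M`, where `M` is the homology of `𝒜`, stable under pull-back and push-forward
for the morphisms of varieties and under the product with the classes of cycles on `V`. It is
not assumed that `b` is not degenerate.
-/

open CategoryTheory Pool.Agent.H914 Pool.Agent.N174.NC

universe u v w

namespace Pool.Agent.Results.MP_28af06_ag.ProductsOfDgCategories

/-- **The noncommutative standard conjecture of type D for `perf(V) ⊗ 𝒜`.** -/
theorem result {k : Type u} [Field k] {𝒱 : VarClass k} {ops : CycleOps 𝒱}
    {W : WeilCohomology.{u, v} ops} {Γ : Type w} [Group Γ] {𝒜 : DgCat W Γ} {V₀ V : 𝒱.Obj}
    (h : DReach 𝒜 V₀ V) (h₀ : NCTypeD 𝒜 V₀) : NCTypeD 𝒜 V :=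
  ncTypeD_of_reach h h₀

end Pool.Agent.Results.MP_28af06_ag.ProductsOfDgCategories
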