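import Pool.Agent.N180.NCD.Fin

/-!
# Numerical equivalence for smooth proper dg categories by a canonical filtration

`C` is a `Λ`-linear rigid symmetric monoidal category in which the endomorphisms of the unit object are
the elements of the field `Λ` of characteristic zero, for example the category `NChow(k)_ℚ` of
noncommutative Chow motives over a perfect field; `R` is a `Λ`-linear symmetric monoidal functor to
finite dimensional super vector spaces over a field `K`, for example `HP_±` in characteristic zero and
`TP_±(-)_{1/p}` in characteristic `p`.

Let `A` be a smooth proper dg category, `B = A × A^op` and `T = U(B) = U(A) ⊕ U(A^op)`. The object `T`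
is self-dual, `R(T)` is the sum of `HP(A)` and its dual, and the morphisms `T ^ n ⟶ 𝟙` are the classes in
`K_0(B^{⊗ n})_ℚ`, that is, in the groups `K_0(A^{⊗ a} ⊗ (A^op)^{⊗ b})_ℚ` with `a + b = n`. Such a class is
homologically trivial if its realisation is zero, and numerically trivial if it is in the kernel of
the Euler form, that is, if all traces of its composites with classes of the dual category vanish.

**Theorem.** Suppose that the parity operator of `R(T)` is a combination, with coefficients in `K`, of
classes in `K_0(B^op ⊗ B)` (this is the conjecture `C⁺` for `A` with coefficients in `K`; it is known
for all `perf(X)` over a finite field by Katz and Messing). For every `N` there is a filtration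
`F^t`, `t` real, of `R(T)` by subspaces which is self-dual, stable under all classes in `K_0(B^op ⊗ B)`
and under all symmetries (for example those given by the Frobenius), such that for all `n ≤ N` all
classes in `K_0(B^{⊗ n})_ℚ` have weight `≥ 0`, and such a class is numerically trivial if and only if
it has weight `> 0`. Homological and numerical equivalence coincide on all `K_0(B^{⊗ n})_ℚ` with
`n ≤ N` if and only if `F` is trivial.

(A form `f` on `R(T)^n` has weight `≥ 0` if `f(x_1, …, x_n) = 0` whenever `x_i ∈ F^{t_i}` and
`∑ t_i > 0`, and weight `> 0` if this holds whenever `∑ t_i ≥ 0`.)

So the noncommutative conjecture `D` for a category `A` and its tensor powers is the question whether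
one canonical filtration on periodic cyclic homology exists for a trivial reason. Nothing is
assumed about the shape of `A`: `A` is not of the form `perf(X)`, and there are no polarizations,
Lefschetz operators or Hodge index theorems.

Idea of the proof. The numerically trivial forms are a tensor ideal in the algebra of all forms.
A theorem of the Hilbert-Mumford type for tensor ideals shows that there is a one-parameter group
(after an extension of `K`) contracting the ideal to zero while the algebra has limits (a theorem
of the alternative with strict and weak inequalities); the optimal one among them (Kempf) gives a
unique filtration, which therefore descends to `K` and is stable under everything. The abstract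
theorem on pairs of families of multilinear forms is the one used for varieties in
`MP_f569db_ag.WeightFiltration`; here it is applied in an arbitrary rigid category, where signs,
permutations, contractions and duals are constructed from the functor `R`.
-/

set_option autoImplicit false

open CategoryTheory MonoidalCategory
open Pool.Agent.Y112.SR Pool.Agent.Y112.KD Pool.Agent.N64.AF Pool.Agent.N180.NCDS

namespace Pool.Agent.Results.MP_28af06_ag.WeightFiltration

universe v u w t

/-- **Numerical equivalence is given by a canonical filtration of the realisation.** -/
theorem result {C : Type u} [Category.{v} C] [Preadditive C] [MonoidalCategory C]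
    [MonoidalPreadditive C] [SymmetricCategory C] [RightRigidCategory C]
    {Λ : Type t} [Field Λ] [CharZero Λ] [Linear Λ C] [MonoidalLinear Λ C]
    {K : Type w} [Field K] [Algebra Λ K] (R : SuperRealisation C K) (hR : IsReal Λ R)
    (T : C) [ExactPairing T T] (hp : ParityAlgebraic R T) (N : ℕ) :
    ∃ F : ℝ → Submodule K (R.H.obj T),
      IsWeightFiltration (pairing R T) (endos R T) (forms R T) (numForms R T) N F ∧
        (HomEqNum R T N ↔ IsTrivial F) :=
  main hR hp N

end Pool.Agent.Results.MP_28af06_ag.WeightFiltration
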