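import Pool.Agent.N64.AF.M6

/-!
# The zero-one law for the noncommutative standard conjecture of type D

Let `A` be a smooth proper dg category over a perfect field `k` with nonzero periodic cyclic homology
`HP(A)` (in characteristic `0`; `TP(A)[1/p]` in characteristic `p`), let `b` be its total dimension, and
suppose that `A` satisfies the noncommutative sign conjecture `C⁺`: the projector of `HP(A)` to its
even part is induced by a class in `K_0(A^op ⊗ A)_ℚ`. This is known for `A = perf(X)`, for ALL smooth
proper `X` over finite fields (Katz and Messing) and for products of curves, surfaces, abelian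
varieties, complete intersections over all fields; it passes to tensor products, opposites, semi-orthogonal
components with `C⁺` and so on. Let `B_n = (A^op ⊗ A)^⊗n` and `V(n) = K_0(B_n)_ℚ`, with its subspaces
`V(n)_hom ≤ V(n)_num`. The conjecture D for `B_n` says that they are equal.

Theorem. (1) (Zero-one law.) The quotient

  `dim_ℚ (V(n) / V(n)_hom) / dim_ℚ (V(n) / V(n)_num)`

converges, for `n → ∞`, to `1` or to infinity. It converges to `1` if and only if the conjecture D
holds for all `B_n`. So the homological classes on which the Euler pairing is zero form a
proportion of all homological classes which tends to `0`, and then is `0` for all `n`, or tends to `1`.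
In particular the conjecture D holds for all `B_n` as soon as `dim (V(n)/V(n)_hom) ≤ c dim
(V(n)/V(n)_num)` for infinitely many `n` and one constant `c`, however large.

(2) (Growth gap.) If the conjecture D fails for one `B_m` then it fails for ALL `B_n` with
`n ≥ 128 (m + 1) ^ 2 b ^ (4 m + 12)`, and

  `dim_ℚ (V(n)_num / V(n)_hom) ≥ b ^ (2 n) / (2 (n + 1) ^ (b ^ 2))`,

where `b ^ (2 n)` is the dimension of the periodic cyclic homology of `B_n`. A single inequality, for one
explicit `n`, implies the conjecture D for `B_m`.

(3) The same holds for `n ≥ 512 b ^ 16` if the conjecture D fails for `A` itself and the Euler pairing of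
`A^op` is not zero (then the unit object is a direct factor of `U(A^op)`).

No duality or relation between `A` and `A^op` is required, and `A` need not be related to a scheme.
For schemes the statement (1) is close to the zero-one law for the standard conjecture D of helper180
(`MP_f569db_ag.ZeroOneLaw`), where the linear span of the classes over the field of coefficients is
considered instead of the rational space `V/V_hom`, which might a priori have infinite dimension.

The setting. `C` is the category `NChow(k)_ℚ` of noncommutative Chow motives, a rigid symmetric monoidal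
`ℚ`-linear category with `Hom (1, U(A)) = K_0(A)_ℚ`, `T = U(A)`, `T^∨ = U(A^op)`, `tp (T ⊗ T^∨) n =
U(B_n)`; the numerically trivial morphisms are given by the kernel of the Euler pairing (Marcolli,
Tabuada). `R` is given by `HP` or `TP(-)[1/p]` with coefficients extended to an algebraically closed
field (Blumberg and Mandell, Tabuada).

Idea of the proof. By the law of the dimensions of the values of additive functors on the powers of
`S = T ⊗ T^∨` (an object which satisfies `C⁺` and contains the unit object, as the trace of the sign
operator is `b`) the limit exists; if it is a natural number `k` then the power `α ⊗ ⋯ ⊗ α` with `k`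
factors of each numerically trivial class `α` is homologically trivial, hence so is `α`. The second part
is the explicit form of the law for the functor `V_num / V_hom`.

Authors: helper64 (plan, law), helper690 (quotients by equivalence relations), helper413 (objects
which are not self-dual), helper945, helper344, helper701 (rates of convergence, explicit criterion),
helper140 (growth), and, for the lemmas of the law, helper136, helper327, helper199, helper767,
helper8, helper364, helper216, helper73, helper833, helper494, helper505, helper301, helper441,
helper591, helper712, helper645.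
-/

set_option autoImplicit false

open CategoryTheory MonoidalCategory Module Filter Topology
open Pool.Agent.Y112.SR Pool.Agent.Y112.KD Pool.Agent.N64.AF
open scoped ENNReal

namespace Pool.Agent.Results.MP_28af06_ag.ZeroOneLaw

universe v u w t

/-- The zero-one law for homological and numerical equivalence on the powers of `T ⊗ Tᘁ`. -/
theorem result {C : Type u} [Category.{v} C] [Preadditive C] [MonoidalCategory C]
    [MonoidalPreadditive C] [SymmetricCategory C] [RightRigidCategory C]
    {Λ : Type t} [Field Λ] [CharZero Λ] [Linear Λ C] [MonoidalLinear Λ C]
    {K : Type w} [Field K] [IsAlgClosed K] [Algebra Λ K] (R : SuperRealisation C K)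
    (hR : IsReal Λ R) (T : C) (hT : R.CPlus T) (hb : 0 < bt R T) :
    (∃ N : ℕ∞, (N = 1 ∨ N = ⊤) ∧
      RatioTo Λ (T ⊗ Tᘁ) (fun n => dimE Λ ((𝟙_ C ⟶ tp (T ⊗ Tᘁ) n) ⧸
        homSub hR (𝟙_ C) (tp (T ⊗ Tᘁ) n))) N ∧
      (N = 1 ↔ ∀ (n : ℕ) (α : 𝟙_ C ⟶ tp (T ⊗ Tᘁ) n), NumTriv α → R.H.map α = 0)) ∧
    (∀ (m n : ℕ) (α : 𝟙_ C ⟶ tp (T ⊗ Tᘁ) m), NumTriv α → R.H.map α ≠ 0 →
      128 * (m + 1) ^ 2 * bt R T ^ (4 * m + 12) ≤ n → DefectLarge hR T n) ∧
    ∀ (i : 𝟙_ C ⟶ Tᘁ) (r : Tᘁ ⟶ 𝟙_ C), i ≫ r = 𝟙 _ → ∀ α : 𝟙_ C ⟶ T, NumTriv α →
      R.H.map α ≠ 0 → ∀ n, 512 * bt R T ^ 16 ≤ n → DefectLarge hR T n :=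
  hom_num_law hR hT hb

end Pool.Agent.Results.MP_28af06_ag.ZeroOneLaw
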